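import Mathlib
import Pool.Agent.H97R2.BP.Defs
import Pool.Agent.H97R2.BP.Defs2

open scoped ComplexOrder InnerProductSpace ComplexConjugate TensorProduct
open Finset H759R2.Kad H710R2.DP

noncomputable section

namespace H97R2.BP

theorem bp_pinf (h1 : Z_inf) (h2 : Z_supp) (h3 : Z_dir) (h4 : Z_tuple) : Z_pinf := by
  intro H _ _ _ M P c hc hP p s₁ s₂ hp hs₁ hs₂ e1 e2 e3 e4 e5
  classical
  have hR := h1 H M P c hc hP p s₁ s₂ hp hs₁ hs₂ e1 e2 e3 e4 e5
  obtain ⟨⟨hpstar, hpp⟩, hpM, hpcomm⟩ := hp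
  have hppx : ∀ x : H, p (p x) = p x := fun x => by
    have := congrArg (fun t : H →L[ℂ] H => t x) hpp
    exact this
  -- the vectors
  let ξ : (F : Finset H) → Fin F.card → H := fun F j => p (F.equivFin.symm j : H)
  have hξ : ∀ (F : Finset H) (x : H), x ∈ F → ∃ j, ξ F j = p x := by
    intro F x hx
    refine ⟨F.equivFin ⟨x, hx⟩, ?_⟩
    show p ((F.equivFin.symm (F.equivFin ⟨x, hx⟩) : F) : H) = p x
    rw [Equiv.symm_apply_apply]
  have hex := fun F : Finset H => h2 H M F.card (ξ F)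
  choose e heM hePr hefix hesupp hemin using hex
  have hpe : ∀ F, p * e F = e F := by
    intro F
    apply hemin F p hpM
    intro j
    exact hppx _
  have hep : ∀ F, e F * p = e F := by
    intro F
    have h := congrArg star (hpe F)
    rwa [star_mul, hpstar, (hePr F).1] at h
  refine h3 H M p (Finset H) e ?_ hpM ⟨hpstar, hpp⟩ hpe ?_ ?_
  · intro F
    refine ⟨heM F, hePr F, ?_⟩
    exact h4 H M p ⟨⟨hpstar, hpp⟩, hpM, hpcomm⟩ c hc hR F.card (ξ F) (e F) (heM F) (hePr F) (hpe F)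
      (hefix F) (hesupp F)
  · intro F F' hFF
    apply hemin F (e F') (heM F')
    intro j
    have hx : (F.equivFin.symm j : H) ∈ F' := hFF (F.equivFin.symm j).2
    obtain ⟨j', hj'⟩ := hξ F' _ hx
    have h := hefix F' j'
    rw [hj'] at h
    exact h
  · intro ζ ε hε
    refine ⟨{ζ}, ?_⟩
    obtain ⟨j, hj⟩ := hξ {ζ} ζ (Finset.mem_singleton_self ζ)
    have h := hefix {ζ} j
    rw [hj] at h
    have h' : e {ζ} ζ = p ζ := by
      have h5 := congrArg (fun t : H →L[ℂ] H => t ζ) (hep {ζ})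
      have h6 : e {ζ} (p ζ) = e {ζ} ζ := h5
      rw [← h6, h]
    rw [h', sub_self, norm_zero]
    exact hε.le

end H97R2.BP
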